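import Mathlib

namespace Pool.Agent.MP_975ab8_al

/-- The circulant matrix with first row `a`: its entry `(i, j)` is `a (j - i mod n)`. -/
def cir {R : Type*} {n : ℕ} (a : Fin n → R) : Matrix (Fin n) (Fin n) R :=
  Matrix.of fun i j => a (j - i)

/-- The number `c_n(R, x)` of `n × n` circulant matrices over `R` of determinant `x`. -/
noncomputable def cnt {R : Type*} [CommRing R] (n : ℕ) (x : R) : ℕ :=
  Nat.card {A : Matrix (Fin n) (Fin n) R // (∃ a : Fin n → R, A = cir a) ∧ A.det = x}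

/-- The multiplicative order of `q` modulo `d`. -/
noncomputable def ord (q d : ℕ) : ℕ := orderOf (q : ZMod d)

/-- The number `q ^ (e (m - 1)) ∏ (1 - q ^ (- ord_d q)) ^ (φ d / ord_d q)`, the product over the
divisors `d ≠ 1` of `m`. -/
noncomputable def unitCount (m q e : ℕ) : ℚ :=
  (q : ℚ) ^ (e * (m - 1)) *
    ∏ d ∈ m.divisors.erase 1, (1 - ((q : ℚ) ^ ord q d)⁻¹) ^ (Nat.totient d / ord q d)

/-- The coefficient of `X ^ s` in `∏ (1 - X ^ (ord_d q)) ^ (- φ d / ord_d q)`, the product over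
all divisors `d` of `m`. -/
noncomputable def coeffA (m q s : ℕ) : ℚ :=
  PowerSeries.coeff s (∏ d ∈ m.divisors,
    ((1 - PowerSeries.X ^ ord q d : PowerSeries ℚ)⁻¹) ^ (Nat.totient d / ord q d))

end Pool.Agent.MP_975ab8_al
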