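import Mathlib
import Pool.Agent.MP_975ab8_al.Defs

namespace Pool.Agent.MP_975ab8_al

/-- The exponent `ℓ(w)`: the maximum over all subsets `J` of `{0, ..., k}` of
`∑_{j ∈ J} w j - ∑_{i < j in J} φ(p ^ i)` (the empty set gives `0`). -/
def ell (p k : ℕ) (w : Fin (k + 1) → ℕ) : ℕ :=
  Finset.univ.sup fun J : Finset (Fin (k + 1)) =>
    ∑ j ∈ J, w j - ∑ j ∈ J, ∑ i ∈ J.filter (fun i => i < j), Nat.totient (p ^ (i : ℕ))

/-- The number `z(Q, s)`: the sum over all `w : {0, ..., k} → ℕ` with `∑ w = s` and all subsets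
`I` of `{0, ..., k}` of `(-1) ^ |I| / Q ^ ℓ(w + 1_I)`. -/
def zCoeff (p k : ℕ) (Q : ℚ) (s : ℕ) : ℚ :=
  ∑ w ∈ Finset.Nat.antidiagonalTuple (k + 1) s, ∑ I : Finset (Fin (k + 1)),
    (-1) ^ I.card / Q ^ ell p k (fun j => w j + if j ∈ I then 1 else 0)

/-- The power series `∑_s z(Q, s) X ^ (d s)`. -/
noncomputable def localZ (p k : ℕ) (Q : ℚ) (d : ℕ) : PowerSeries ℚ :=
  PowerSeries.mk fun t => if d ∣ t then zCoeff p k Q (t / d) else 0

/-- The coefficient of `X ^ s` in the product over the divisors `d` of `m` of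
`(∑_t z(q ^ o_d, t) X ^ (o_d t)) ^ (φ d / o_d)`, where `o_d` is the order of `q` modulo `d`. -/
noncomputable def coeffG (p k m q s : ℕ) : ℚ :=
  PowerSeries.coeff s (∏ d ∈ m.divisors,
    localZ p k ((q : ℚ) ^ ord q d) (ord q d) ^ (Nat.totient d / ord q d))

end Pool.Agent.MP_975ab8_al
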